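import Pool.Agent.H30.BV.Targets

/-! Module DV: Lipschitz bound from the first derivative (MP_04ff0f_nt). -/

set_option autoImplicit false

open Finset Real
open scoped Nat

namespace Pool.Agent.H11.BV

open Pool.Agent.H30.BV

theorem dv_zero (f : ℕ → ℂ) : DS f 0 = LSeries f := by
  funext s
  unfold DS
  congr 1
  funext n
  simp

theorem dv_one (f : ℕ → ℂ) : DS f 1 = LSeries (LSeries.logMul f) := by
  funext s
  unfold DS
  congr 1
  funext n
  rw [LSeries.logMul, pow_one, Complex.natCast_log, mul_comm]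

theorem dv_deriv (f : ℕ → ℂ) (hf : ∀ n, ‖f n‖ ≤ 1) (s : ℂ) (hs : 1 < s.re) :
    HasDerivAt (DS f 0) (-DS f 1 s) s := by
  rw [dv_zero, dv_one]
  refine LSeries_hasDerivAt ?_
  refine lt_of_le_of_lt (LSeries.abscissaOfAbsConv_le_of_le_const ⟨1, fun n _ => hf n⟩) ?_
  exact_mod_cast hs

theorem dv (hPB : T_PB) : T_DV := by
  obtain ⟨C, hC, h⟩ := hPB 1
  refine ⟨C, hC, ?_⟩
  intro f B T s₁ s₂ hB hT hf hM h1 h1' h2 h2' hi1 hi2
  let S : Set ℂ := {s | 1 < s.re ∧ s.re ≤ 3 ∧ |s.im| ≤ T}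
  have hconv : Convex ℝ S := by
    have e : S = (Complex.re ⁻¹' Set.Ioc 1 3) ∩ (Complex.im ⁻¹' Set.Icc (-T) T) := by
      ext s
      simp only [S, Set.mem_setOf_eq, Set.mem_inter_iff, Set.mem_preimage, Set.mem_Ioc,
        Set.mem_Icc, abs_le]
      tauto
    rw [e]
    exact ((convex_Ioc (1 : ℝ) 3).is_linear_preimage
      (f := Complex.re) ⟨Complex.add_re, fun c x => by simp⟩).inter
      ((convex_Icc (-T) T).is_linear_preimage
      (f := Complex.im) ⟨Complex.add_im, fun c x => by simp⟩)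
  have key := hconv.norm_image_sub_le_of_norm_hasDerivWithin_le (f := DS f 0)
    (f' := fun s => -DS f 1 s) (C := C * Real.log (B * (T + 3)) ^ 2)
    (x := s₂) (y := s₁)
    (fun s hs => (dv_deriv f hf s hs.1).hasDerivWithinAt) ?_ ⟨h2, h2', hi2⟩ ⟨h1, h1', hi1⟩
  · exact key
  · intro s hs
    rw [norm_neg]
    refine (h f B s hB hf hM hs.1 hs.2.1).trans ?_
    refine mul_le_mul_of_nonneg_left ?_ hC.le
    have h3 : (1 : ℝ) ≤ B * (|s.im| + 3) := by
      have : (0 : ℝ) ≤ |s.im| := abs_nonneg _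
      nlinarith
    refine pow_le_pow_left₀ (Real.log_nonneg h3) ?_ 2
    refine Real.log_le_log (by linarith) ?_
    have h4 : |s.im| ≤ T := hs.2.2
    exact mul_le_mul_of_nonneg_left (by linarith) (by linarith)

end Pool.Agent.H11.BV
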