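import Pool.Agent.H8.BV.Targets
import Pool.Agent.H63.VZ.JDT
import Pool.Agent.H8.HX.GDX

/-! Row JAC of the board `bv_modules`: the jacobian of the tuple `(P, T 1, ..., T N)`. -/

set_option autoImplicit false

open MvPolynomial
open Pool.Agent.H12.ZD (pmap)
open Pool.Agent.H18.HIT Pool.Agent.H18.HX Pool.Agent.H18.VZ
open Pool.Agent.H8.BIG (KF line)
open Pool.Agent.H8.BV

namespace Pool.Agent.H11.BV

section

variable {R : Type} [CommRing R] {N : ℕ}

/-- the transformation of the columns -/
def um (a : R) (b : Fin N → R) : Matrix (Fin (N + 1)) (Fin (N + 1)) R :=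
  Matrix.of fun j c => Fin.cases (motive := fun _ => R) (Fin.cases (motive := fun _ => R) 1
    (fun _ => 0) j)
    (fun l => Fin.cases (motive := fun _ => R) (-b l) (fun i => if i = l then a else 0) j) c

theorem um_det (a : R) (b : Fin N → R) : (um a b).det = a ^ N := by
  rw [Matrix.det_succ_column_zero, Fin.sum_univ_succ]
  have h1 : ∑ i : Fin N, (-1 : R) ^ ((i.succ : Fin (N + 1)) : ℕ) * um a b i.succ 0 *
      ((um a b).submatrix i.succ.succAbove Fin.succ).det = 0 := by
    refine Finset.sum_eq_zero fun i _ => ?_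
    have : um a b i.succ 0 = 0 := rfl
    rw [this, mul_zero, zero_mul]
  rw [h1, add_zero]
  have h2 : um a b 0 0 = 1 := rfl
  have h3 : (um a b).submatrix (Fin.succAbove 0) Fin.succ = Matrix.diagonal fun _ => a := by
    ext i l
    rw [Matrix.submatrix_apply, Fin.succAbove_zero, Matrix.diagonal_apply]
    rfl
  rw [h2, h3, Matrix.det_diagonal, Finset.prod_const, Finset.card_univ, Fintype.card_fin]
  simp

theorem mul_um_zero (M : Matrix (Fin (N + 1)) (Fin (N + 1)) R) (a : R) (b : Fin N → R)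
    (i : Fin (N + 1)) : (M * um a b) i 0 = M i 0 := by
  rw [Matrix.mul_apply, Fin.sum_univ_succ]
  have h1 : ∑ j : Fin N, M i j.succ * um a b j.succ 0 = 0 := by
    refine Finset.sum_eq_zero fun j _ => ?_
    have : um a b j.succ 0 = 0 := rfl
    rw [this, mul_zero]
  have h2 : um a b 0 0 = 1 := rfl
  rw [h1, h2, mul_one, add_zero]

theorem mul_um_succ (M : Matrix (Fin (N + 1)) (Fin (N + 1)) R) (a : R) (b : Fin N → R)
    (i : Fin (N + 1)) (l : Fin N) : (M * um a b) i l.succ = a * M i l.succ - b l * M i 0 := by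
  rw [Matrix.mul_apply, Fin.sum_univ_succ]
  have h1 : ∑ j : Fin N, M i j.succ * um a b j.succ l.succ = M i l.succ * a := by
    have h3 : ∀ j : Fin N, um a b j.succ l.succ = if j = l then a else 0 := fun _ => rfl
    simp only [h3, mul_ite, mul_zero]
    rw [Finset.sum_ite_eq' Finset.univ l]
    simp
  have h2 : um a b 0 l.succ = -b l := rfl
  rw [h1, h2]
  ring

/-- the determinant of the jacobian matrix -/
theorem det_red (M : Matrix (Fin (N + 1)) (Fin (N + 1)) R) :
    M 0 0 ^ N * M.det = M 0 0 *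
      (Matrix.of fun i l : Fin N => M 0 0 * M i.succ l.succ - M 0 l.succ * M i.succ 0).det := by
  have h0 : (M * um (M 0 0) fun l => M 0 l.succ).det = M.det * M 0 0 ^ N := by
    rw [Matrix.det_mul, um_det]
  rw [mul_comm (M 0 0 ^ N), ← h0, Matrix.det_succ_row_zero, Fin.sum_univ_succ]
  have h1 : ∑ j : Fin N, (-1 : R) ^ ((j.succ : Fin (N + 1)) : ℕ) *
      (M * um (M 0 0) fun l => M 0 l.succ) 0 j.succ *
      ((M * um (M 0 0) fun l => M 0 l.succ).submatrix Fin.succ j.succ.succAbove).det = 0 := by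
    refine Finset.sum_eq_zero fun j _ => ?_
    rw [mul_um_succ]
    have : M 0 0 * M 0 j.succ - M 0 j.succ * M 0 0 = 0 := by ring
    rw [this, mul_zero, zero_mul]
  rw [h1, add_zero, mul_um_zero]
  have h3 : (M * um (M 0 0) fun l => M 0 l.succ).submatrix Fin.succ (Fin.succAbove 0) =
      Matrix.of fun i l : Fin N => M 0 0 * M i.succ l.succ - M 0 l.succ * M i.succ 0 := by
    ext i l
    rw [Matrix.submatrix_apply, Fin.succAbove_zero, mul_um_succ]
    rfl
  rw [h3]
  simp

end

theorem pf_JAC : Pool.Agent.H8.BV.T_JAC := by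
  intro N k _ _ P T hirr hm hF hdvd
  have hpr : Prime P := hirr.prime
  set M : Matrix (Fin (N + 1)) (Fin (N + 1)) (Po (N + 1) k) :=
    Matrix.of fun i j => pderiv j (pt P T i) with hM
  have hjac : jac (pt P T) = M.det := rfl
  rw [hjac] at hdvd
  have h1 := det_red M
  have h2 : P ∣ M 0 0 * (Matrix.of fun i l : Fin N =>
      M 0 0 * M i.succ l.succ - M 0 l.succ * M i.succ 0).det := by
    rw [← h1]
    exact dvd_mul_of_dvd_right hdvd _
  rcases hpr.dvd_or_dvd h2 with h3 | h3
  · have h4 : M 0 0 = pderiv 0 P := rfl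
    rw [h4] at h3
    exact Pool.Agent.H8.HX.not_dvd_pderiv hm hirr h3
  · refine Pool.Agent.H63.VZ.pf_JDT N k P T hirr hm hF ?_
    rw [← Matrix.det_transpose]
    have h5 : Matrix.transpose (Matrix.of fun l i : Fin N => dd P l (T i.succ)) =
        Matrix.of fun i l : Fin N => M 0 0 * M i.succ l.succ - M 0 l.succ * M i.succ 0 := by
      ext1 i l
      rfl
    rw [h5]
    exact h3

end Pool.Agent.H11.BV
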