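import Pool.Agent.H30.BV.Targets

/-! Module RP: the product of four real L-functions is at least 1 (MP_04ff0f_nt). -/

set_option autoImplicit false

open Finset Real
open scoped Nat

namespace Pool.Agent.H11.BV

open Pool.Agent.H30.BV

theorem rp_prod {q₁ q₂ : ℕ} (χ₁ : DirichletCharacter ℂ q₁) (χ₂ : DirichletCharacter ℂ q₂) :
    ∃ Ψ : DirichletCharacter ℂ (q₁ * q₂), ∀ n : ℕ, Ψ (n : ZMod (q₁ * q₂)) = cv χ₁ n * cv χ₂ n := by
  refine ⟨DirichletCharacter.changeLevel (dvd_mul_right q₁ q₂) χ₁ *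
    DirichletCharacter.changeLevel (dvd_mul_left q₂ q₁) χ₂, fun n => ?_⟩
  by_cases h : n.Coprime (q₁ * q₂)
  · have h1 : IsCoprime (n : ℤ) ((q₁ * q₂ : ℕ) : ℤ) := Nat.isCoprime_iff_coprime.2 h
    have e1 := DirichletCharacter.changeLevel_eq_cast_of_dvd' χ₁ (dvd_mul_right q₁ q₂) h1
    have e2 := DirichletCharacter.changeLevel_eq_cast_of_dvd' χ₂ (dvd_mul_left q₂ q₁) h1
    rw [MulChar.mul_apply]
    unfold cv
    rw [Int.cast_natCast, Int.cast_natCast] at e1 e2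
    rw [e1, e2]
  · have h1 : ¬ IsUnit (n : ZMod (q₁ * q₂)) := fun h2 => h ((ZMod.isUnit_iff_coprime _ _).1 h2)
    rw [MulChar.map_nonunit _ h1]
    symm
    rw [Nat.coprime_mul_iff_right, not_and_or] at h
    unfold cv
    rcases h with h | h
    · have h2 : ¬ IsUnit (n : ZMod q₁) := fun h3 => h ((ZMod.isUnit_iff_coprime _ _).1 h3)
      rw [MulChar.map_nonunit _ h2, zero_mul]
    · have h2 : ¬ IsUnit (n : ZMod q₂) := fun h3 => h ((ZMod.isUnit_iff_coprime _ _).1 h3)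
      rw [MulChar.map_nonunit _ h2, mul_zero]

theorem rp_val {q : ℕ} (χ : DirichletCharacter ℂ q) (h : χ ^ 2 = 1) (n : ℕ) :
    cv χ n = 0 ∨ cv χ n = 1 ∨ cv χ n = -1 := by
  unfold cv
  by_cases hu : IsUnit (n : ZMod q)
  · right
    have h1 : (χ ^ 2) (n : ZMod q) = 1 := by
      rw [h, MulChar.one_apply hu]
    rw [MulChar.pow_apply' χ two_ne_zero, sq] at h1
    exact mul_self_eq_one_iff.1 h1
  · left
    exact MulChar.map_nonunit _ hu

/-- the Euler product of a character, in absolute value -/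
theorem rp_euler {q : ℕ} (χ : DirichletCharacter ℂ q) {x : ℝ} (hx : 0 < x) :
    HasProd (fun p : Nat.Primes => ‖(1 - χ ((p : ℕ) : ZMod q) * ((p : ℕ) : ℂ) ^ (-(1 + (x : ℂ))))⁻¹‖)
      ‖DS (fun n => χ (n : ZMod q)) 0 (1 + x)‖ := by
  have hs : 1 < (1 + (x : ℂ)).re := by simp [hx]
  have h := (DirichletCharacter.LSeries_eulerProduct_hasProd χ hs).norm
  have e : DS (fun n => χ (n : ZMod q)) 0 (1 + x) = LSeries (fun n : ℕ => χ (n : ZMod q)) (1 + x) := by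
    unfold DS
    congr 1
    funext n
    simp
  rw [e]
  exact h

theorem rp_ineq (a b : ℂ) (ha : a = 0 ∨ a = 1 ∨ a = -1) (hb : b = 0 ∨ b = 1 ∨ b = -1) (u : ℝ)
    (h0 : 0 < u) (h1 : u < 1) :
    1 ≤ ‖(1 - 1 * (u : ℂ))⁻¹‖ * ‖(1 - a * (u : ℂ))⁻¹‖ * ‖(1 - b * (u : ℂ))⁻¹‖ *
      ‖(1 - a * b * (u : ℂ))⁻¹‖ := by
  have n1 : ‖(1 - (u : ℂ))‖ = 1 - u := by
    rw [show (1 - (u : ℂ)) = ((1 - u : ℝ) : ℂ) by push_cast; ring, Complex.norm_real,
      Real.norm_of_nonneg (by linarith)]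
  have n2 : ‖(1 + (u : ℂ))‖ = 1 + u := by
    rw [show (1 + (u : ℂ)) = ((1 + u : ℝ) : ℂ) by push_cast; ring, Complex.norm_real,
      Real.norm_of_nonneg (by linarith)]
  have p1 : 0 < 1 - u := by linarith
  have p2 : 0 < 1 + u := by linarith
  simp only [norm_inv]
  rw [← mul_inv, ← mul_inv, ← mul_inv]
  have q1 : (1 - u) * (1 - u) ≤ 1 := by nlinarith
  have q2 : (1 - u) * (1 + u) ≤ 1 := by nlinarith
  have q3 : 0 < (1 - u) * (1 - u) := mul_pos p1 p1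
  have q4 : 0 < (1 - u) * (1 + u) := mul_pos p1 p2
  have q5 : (1 - u) * (1 - u) * ((1 - u) * (1 - u)) ≤ 1 := mul_le_one₀ q1 q3.le q1
  have q6 : (1 - u) * (1 + u) * ((1 - u) * (1 + u)) ≤ 1 := mul_le_one₀ q2 q4.le q2
  rcases ha with rfl | rfl | rfl <;> rcases hb with rfl | rfl | rfl <;>
    simp only [one_mul, mul_one, zero_mul, mul_zero, sub_zero, norm_one, neg_mul, mul_neg,
      sub_neg_eq_add, neg_neg, n1, n2, neg_zero, add_zero] <;>
    refine (one_le_inv₀ (by positivity)).2 ?_ <;> linarith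

theorem rp : T_RP := by
  intro q₁ q₂ χ₁ χ₂ x _ _ h1 h2 hx hx1
  obtain ⟨Ψ, hΨ⟩ := rp_prod χ₁ χ₂
  have e0 : DS (fun _ => 1) 0 (1 + (x : ℂ)) =
      DS (fun n => (1 : DirichletCharacter ℂ 1) (n : ZMod 1)) 0 (1 + x) := by
    congr 1
    funext n
    rw [MulChar.one_apply (isUnit_of_subsingleton _)]
  have e3 : (fun n => cv χ₁ n * cv χ₂ n) = fun n : ℕ => Ψ (n : ZMod (q₁ * q₂)) := by
    funext n
    exact (hΨ n).symm
  rw [e0, e3]
  have k := (((rp_euler (1 : DirichletCharacter ℂ 1) hx).mul (rp_euler χ₁ hx)).mul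
    (rp_euler χ₂ hx)).mul (rp_euler Ψ hx)
  refine ge_of_tendsto' k fun s => ?_
  refine Finset.prod_induction _ (fun r : ℝ => 1 ≤ r)
    (fun a b ha hb => one_le_mul_of_one_le_of_one_le ha hb) le_rfl fun p _ => ?_
  have hp : (0 : ℝ) < (p : ℕ) := by exact_mod_cast p.2.pos
  have hp2 : (1 : ℝ) < (p : ℕ) := by exact_mod_cast p.2.one_lt
  have eu : ((p : ℕ) : ℂ) ^ (-(1 + (x : ℂ))) = (((p : ℕ) : ℝ) ^ (-(1 + x)) : ℝ) := by
    rw [Complex.ofReal_cpow hp.le]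
    push_cast
    rfl
  have hu0 : 0 < ((p : ℕ) : ℝ) ^ (-(1 + x)) := Real.rpow_pos_of_pos hp _
  have hu1 : ((p : ℕ) : ℝ) ^ (-(1 + x)) < 1 := Real.rpow_lt_one_of_one_lt_of_neg hp2 (by linarith)
  have key := rp_ineq (cv χ₁ p) (cv χ₂ p) (rp_val χ₁ h1 p) (rp_val χ₂ h2 p) _ hu0 hu1
  rw [hΨ, eu]
  rw [MulChar.one_apply (isUnit_of_subsingleton _)]
  exact key

end Pool.Agent.H11.BV
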